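import Pool.Agent.H73.InvM3

set_option autoImplicit false

namespace Pool.Agent.Results.MP_ff4305_al.Counter

open Pool.Agent.H73.InvM

/-- An E-unitary finitely presented special inverse monoid with right reversible prefix monoid,
whose maximal group image has solvable word problem, but whose word problem is unsolvable. -/
theorem result : ∃ (n : ℕ) (W : Set (List (Fin n × Bool))), W.Finite ∧ IsInverse (SInv W) ∧
    EUnitary (SInv W) ∧ PrefRev (SInv W) ∧
    ComputablePred (fun p : List (Fin n × Bool) × List (Fin n × Bool) =>
      Sig (el W p.1) (el W p.2)) ∧
    ¬ ComputablePred (fun p : List (Fin n × Bool) × List (Fin n × Bool) =>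
      el W p.1 = el W p.2) := main

end Pool.Agent.Results.MP_ff4305_al.Counter
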